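import Pool.Agent.Helper70.MM.Goals5

/-!
# Packet MM5-STRICT
-/

open MeasureTheory Set Metric Filter
open scoped ENNReal RealInnerProductSpace Topology
open Pool.Agent.Results.MP_91ee6f_gt
open Pool.Agent.Helper70.MM

namespace Pool.Agent.Helper24.MM

/-- Continuity at the centre of an integral with the kernels `om 1, …, om 4`. -/
lemma cont_zero {n : ℕ} (hn : 1 ≤ n) {R : ℝ} (hR : 0 < R) (e : En n) (he : ‖e‖ = 1) (j : ℕ)
    (q : En n → ℝ) (hq : Continuous q) (B : ℝ) (hB : ∀ y : En n, ‖y‖ = R → |q y| ≤ B) :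
    ContinuousAt (fun r : ℝ => ∫ y, q y * om j (dist (r • e) y) ∂(sphUnif n R)) 0 := by
  obtain ⟨hprob, hae, -⟩ := fSPH1 n hn R
  have hae' : ∀ᵐ y ∂(sphUnif n R), ‖y‖ = R := hae hR.le
  have hm := om_measurable j
  have hlow : ∀ r : ℝ, |r| < R / 2 → ∀ y : En n, ‖y‖ = R → R / 2 ≤ dist (r • e) y := by
    intro r hr y hy
    have h1 : ‖r • e‖ = |r| := by rw [norm_smul, he, mul_one, Real.norm_eq_abs]
    have h2 : ‖y‖ ≤ ‖r • e‖ + dist (r • e) y := by
      rw [dist_comm, dist_eq_norm]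
      have := norm_add_le (r • e) (y - r • e)
      rwa [add_sub_cancel] at this
    rw [hy, h1] at h2
    linarith
  refine continuousAt_of_dominated (bound := fun _ => B * om j (R / 2)) ?_ ?_
    (integrable_const _) ?_
  · refine Eventually.of_forall fun r => ?_
    have h1 : Measurable fun y : En n => om j (dist (r • e) y) := hm.comp (by fun_prop)
    exact (hq.measurable.mul h1).aestronglyMeasurable
  · have h0 : ∀ᶠ r : ℝ in 𝓝 0, |r| < R / 2 := by
      have : Continuous fun r : ℝ => |r| := continuous_abs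
      exact this.continuousAt.eventually_lt continuousAt_const (by simpa using half_pos hR)
    filter_upwards [h0] with r hr
    filter_upwards [hae'] with y hy
    have h1 := hlow r hr y hy
    have h2 : 0 < R / 2 := by linarith
    have h3 := om_le j h2 h1
    have h4 := om_pos j (h2.trans_le h1)
    rw [norm_mul, Real.norm_eq_abs, Real.norm_eq_abs, abs_of_pos h4]
    exact mul_le_mul (hB y hy) h3 h4.le ((abs_nonneg _).trans (hB y hy))
  · filter_upwards [hae'] with y hy
    refine ContinuousAt.mul continuousAt_const ?_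
    have h1 : ContinuousAt (fun r : ℝ => dist (r • e) y) 0 := by fun_prop
    have h2 : 0 < dist ((0 : ℝ) • e) y := by
      rw [zero_smul, dist_zero_left, hy]; exact hR
    exact ContinuousAt.comp (f := fun r : ℝ => dist (r • e) y) (g := om j)
      ((om_continuousOn j).continuousAt (Ioi_mem_nhds h2)) h1

/-- Integrability near the centre. -/
lemma int_near {n : ℕ} (hn : 1 ≤ n) {R : ℝ} (hR : 0 < R) (e : En n) (he : ‖e‖ = 1) (j : ℕ)
    (q : En n → ℝ) (hq : Continuous q) (B : ℝ) (hB : ∀ y : En n, ‖y‖ = R → |q y| ≤ B)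
    (r : ℝ) (hr : |r| < R / 2) :
    Integrable (fun y => q y * om j (dist (r • e) y)) (sphUnif n R) := by
  obtain ⟨hprob, hae, -⟩ := fSPH1 n hn R
  have hae' : ∀ᵐ y ∂(sphUnif n R), ‖y‖ = R := hae hR.le
  have hm := om_measurable j
  refine Integrable.of_bound (C := B * om j (R / 2)) ?_ ?_
  · have h1 : Measurable fun y : En n => om j (dist (r • e) y) := hm.comp (by fun_prop)
    exact (hq.measurable.mul h1).aestronglyMeasurable
  · filter_upwards [hae'] with y hy
    have h1 : R / 2 ≤ dist (r • e) y := by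
      have h1 : ‖r • e‖ = |r| := by rw [norm_smul, he, mul_one, Real.norm_eq_abs]
      have h2 : ‖y‖ ≤ ‖r • e‖ + dist (r • e) y := by
        rw [dist_comm, dist_eq_norm]
        have := norm_add_le (r • e) (y - r • e)
        rwa [add_sub_cancel] at this
      rw [hy, h1] at h2
      linarith
    have h2 : 0 < R / 2 := by linarith
    have h3 := om_le j h2 h1
    have h4 := om_pos j (h2.trans_le h1)
    rw [norm_mul, Real.norm_eq_abs, Real.norm_eq_abs, abs_of_pos h4]
    exact mul_le_mul (hB y hy) h3 h4.le ((abs_nonneg _).trans (hB y hy))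

lemma rh_bound {n : ℕ} {e : En n} (he : ‖e‖ = 1) {R : ℝ} (y : En n) (hy : ‖y‖ = R) :
    0 ≤ rh e y ∧ rh e y ≤ R ^ 2 := by
  have h1 : |inner ℝ y e| ≤ ‖y‖ * ‖e‖ := abs_real_inner_le_norm y e
  rw [he, mul_one, hy] at h1
  have h2 : (inner ℝ y e) ^ 2 ≤ R ^ 2 := sq_le_sq' (by linarith [neg_abs_le (inner ℝ y e)])
    ((le_abs_self _).trans h1)
  unfold rh
  rw [hy]
  constructor
  · linarith
  · nlinarith [sq_nonneg (inner ℝ y e)]

lemma rh_cont {n : ℕ} (e : En n) : Continuous (rh e) := by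
  unfold rh
  fun_prop

lemma FF_split {n : ℕ} (hn : 1 ≤ n) {R : ℝ} (hR : 0 < R) (e : En n) (he : ‖e‖ = 1) (r : ℝ)
    (hr : |r| < R / 2) :
    FF e R r = (∫ y, rh e y / ((n : ℝ) - 1) * om 2 (dist (r • e) y) ∂(sphUnif n R)) -
      ∫ y, (1 : ℝ) * om 1 (dist (r • e) y) ∂(sphUnif n R) := by
  unfold FF
  rw [← integral_sub]
  · refine integral_congr_ae (Eventually.of_forall fun y => ?_)
    simp only [one_mul]
  · refine int_near hn hR e he 2 (fun y => rh e y / ((n : ℝ) - 1)) ((rh_cont e).div_const _)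
      (R ^ 2 / |(n : ℝ) - 1|) ?_ r hr
    intro y hy
    have := rh_bound he y hy
    rw [abs_div, abs_of_nonneg this.1]
    gcongr
    exact this.2
  · exact int_near hn hR e he 1 (fun _ => 1) continuous_const 1 (fun y _ => by simp) r hr

lemma GG_split {n : ℕ} (hn : 1 ≤ n) {R : ℝ} (hR : 0 < R) (e : En n) (he : ‖e‖ = 1) (r : ℝ)
    (hr : |r| < R / 2) :
    GG e R r = (∫ y, (1 : ℝ) * om 2 (dist (r • e) y) ∂(sphUnif n R)) -
      (∫ y, 2 * rh e y / ((n : ℝ) - 1) * om 3 (dist (r • e) y) ∂(sphUnif n R)) +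
      ∫ y, rh e y ^ 2 / (((n : ℝ) - 1) * ((n : ℝ) + 1)) * om 4 (dist (r • e) y)
        ∂(sphUnif n R) := by
  have i1 := int_near hn hR e he 2 (fun _ => 1) continuous_const 1 (fun y _ => by simp) r hr
  have i2 := int_near hn hR e he 3 (fun y => 2 * rh e y / ((n : ℝ) - 1))
    ((continuous_const.mul (rh_cont e)).div_const _) (2 * R ^ 2 / |(n : ℝ) - 1|) (by
      intro y hy
      have := rh_bound he y hy
      rw [abs_div, abs_mul, abs_of_nonneg this.1, abs_of_pos (by norm_num : (0 : ℝ) < 2)]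
      gcongr
      exact this.2) r hr
  have i3 := int_near hn hR e he 4 (fun y => rh e y ^ 2 / (((n : ℝ) - 1) * ((n : ℝ) + 1)))
    (((rh_cont e).pow 2).div_const _) ((R ^ 2) ^ 2 / |((n : ℝ) - 1) * ((n : ℝ) + 1)|) (by
      intro y hy
      have := rh_bound he y hy
      rw [abs_div, abs_pow, abs_of_nonneg this.1]
      exact div_le_div_of_nonneg_right (pow_le_pow_left₀ this.1 this.2 2) (abs_nonneg _)) r hr
  unfold GG
  have e1 := integral_add (i1.sub i2) i3
  have e2 := integral_sub i1 i2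
  simp only [Pi.sub_apply] at e1
  rw [← e2, ← e1]
  refine integral_congr_ae (Eventually.of_forall fun y => ?_)
  simp only [one_mul]

lemma FF_cont {n : ℕ} (hn : 1 ≤ n) {R : ℝ} (hR : 0 < R) (e : En n) (he : ‖e‖ = 1) :
    ContinuousAt (FF e R) 0 := by
  have c1 := cont_zero hn hR e he 2 (fun y => rh e y / ((n : ℝ) - 1)) ((rh_cont e).div_const _)
      (R ^ 2 / |(n : ℝ) - 1|) (by
    intro y hy
    have := rh_bound he y hy
    rw [abs_div, abs_of_nonneg this.1]
    gcongr
    exact this.2)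
  have c2 := cont_zero hn hR e he 1 (fun _ => 1) continuous_const 1 (fun y _ => by simp)
  refine (c1.sub c2).congr ?_
  have h0 : ∀ᶠ r : ℝ in 𝓝 0, |r| < R / 2 := by
    have : Continuous fun r : ℝ => |r| := continuous_abs
    exact this.continuousAt.eventually_lt continuousAt_const (by simpa using half_pos hR)
  filter_upwards [h0] with r hr
  rw [FF_split hn hR e he r hr]
  rfl

lemma GG_cont {n : ℕ} (hn : 1 ≤ n) {R : ℝ} (hR : 0 < R) (e : En n) (he : ‖e‖ = 1) :
    ContinuousAt (GG e R) 0 := by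
  have c1 := cont_zero hn hR e he 2 (fun _ => 1) continuous_const 1 (fun y _ => by simp)
  have c2 := cont_zero hn hR e he 3 (fun y => 2 * rh e y / ((n : ℝ) - 1))
    ((continuous_const.mul (rh_cont e)).div_const _) (2 * R ^ 2 / |(n : ℝ) - 1|) (by
      intro y hy
      have := rh_bound he y hy
      rw [abs_div, abs_mul, abs_of_nonneg this.1, abs_of_pos (by norm_num : (0 : ℝ) < 2)]
      gcongr
      exact this.2)
  have c3 := cont_zero hn hR e he 4 (fun y => rh e y ^ 2 / (((n : ℝ) - 1) * ((n : ℝ) + 1)))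
    (((rh_cont e).pow 2).div_const _) ((R ^ 2) ^ 2 / |((n : ℝ) - 1) * ((n : ℝ) + 1)|) (by
      intro y hy
      have := rh_bound he y hy
      rw [abs_div, abs_pow, abs_of_nonneg this.1]
      exact div_le_div_of_nonneg_right (pow_le_pow_left₀ this.1 this.2 2) (abs_nonneg _))
  refine ((c1.sub c2).add c3).congr ?_
  have h0 : ∀ᶠ r : ℝ in 𝓝 0, |r| < R / 2 := by
    have : Continuous fun r : ℝ => |r| := continuous_abs
    exact this.continuousAt.eventually_lt continuousAt_const (by simpa using half_pos hR)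
  filter_upwards [h0] with r hr
  rw [GG_split hn hR e he r hr]
  rfl

/-- The three values at `R`. -/
lemma om_vals {R : ℝ} (hR : 0 < R) :
    om 1 R = Real.exp (-R) / R ∧ om 2 R = Real.exp (-R) * (1 + R) / R ^ 3 ∧
    om 3 R = Real.exp (-R) * (R ^ 2 + 3 * R + 3) / R ^ 5 ∧
    om 4 R = Real.exp (-R) * (R ^ 3 + 6 * R ^ 2 + 15 * R + 15) / R ^ 7 := by
  have h1 : om 1 R = Real.exp (-R) / R := om_one R
  have h2 : om 2 R = Real.exp (-R) * (1 + R) / R ^ 3 := by
    rw [om_succ_succ 0 R, om_zero, om_one]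
    push_cast
    field_simp
    ring
  have h3 : om 3 R = Real.exp (-R) * (R ^ 2 + 3 * R + 3) / R ^ 5 := by
    rw [om_succ_succ 1 R, h1, h2]
    push_cast
    field_simp
    ring
  have h4 : om 4 R = Real.exp (-R) * (R ^ 3 + 6 * R ^ 2 + 15 * R + 15) / R ^ 7 := by
    rw [om_succ_succ 2 R, h2, h3]
    push_cast
    field_simp
    ring
  exact ⟨h1, h2, h3, h4⟩

theorem strict : PDER → SDER → AVG → STRICT := by
  intro hP hS hA n hn
  have hn1 : 1 ≤ n := by omega
  have hn2 : 2 ≤ n := by omega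
  have hn3 : (3 : ℝ) ≤ n := by exact_mod_cast hn
  set R : ℝ := (n : ℝ) - 1 with hRd
  have hR : 0 < R := by rw [hRd]; linarith
  -- an orthonormal triple
  obtain ⟨e, e', e'', hon⟩ : ∃ e e' e'' : En n, Orthonormal ℝ ![e, e', e''] := by
    set b := EuclideanSpace.basisFun (Fin n) ℝ with hb
    refine ⟨b (Fin.castLE hn 0), b (Fin.castLE hn 1), b (Fin.castLE hn 2), ?_⟩
    have h := b.orthonormal.comp (Fin.castLE hn) (Fin.castLE_injective hn)
    have h2 : ![b (Fin.castLE hn 0), b (Fin.castLE hn 1), b (Fin.castLE hn 2)]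
        = (fun i => b (Fin.castLE hn i)) := by
      funext i
      fin_cases i <;> rfl
    rw [h2]
    exact h
  have he : ‖e‖ = 1 := by simpa using hon.1 0
  obtain ⟨-, hm1, hm2⟩ := hA n hn e e' e'' hon R 0 hR.le
  obtain ⟨hprob, hae, -⟩ := fSPH1 n hn1 R
  have hae' : ∀ᵐ y ∂(sphUnif n R), ‖y‖ = R := hae hR.le
  obtain ⟨v1, v2, v3, v4⟩ := om_vals hR
  have hnR : (n : ℝ) = R + 1 := by rw [hRd]; ring
  have hR1 : R + 1 ≠ 0 := by linarith
  have hz : |(0 : ℝ)| < R / 2 := by rw [abs_zero]; linarith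
  have hint : ∀ (j : ℕ) (q : En n → ℝ),
      ∫ y, q y * om j (dist ((0 : ℝ) • e) y) ∂(sphUnif n R) =
        (∫ y, q y ∂(sphUnif n R)) * om j R := by
    intro j q
    rw [← integral_mul_const]
    refine integral_congr_ae ?_
    filter_upwards [hae'] with y hy
    rw [zero_smul, dist_zero_left, hy]
  have hone : ∫ _y : En n, (1 : ℝ) ∂(sphUnif n R) = 1 := by simp
  -- value of FF at the centre
  have hF0 : FF e R 0 = 0 := by
    rw [FF_split hn1 hR e he 0 hz, hint, hint 1 (fun _ => 1), hone, integral_div, hm1, v1, v2, hnR,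
      show R + 1 - 1 = R by ring]
    field_simp
    ring
  have hG0 : GG e R 0 < 0 := by
    have h1 : ∫ y, 2 * rh e y / ((n : ℝ) - 1) ∂(sphUnif n R) = 2 * R ^ 2 / n := by
      rw [integral_div, integral_const_mul, hm1, hnR]
      have : R + 1 - 1 ≠ 0 := by linarith
      field_simp
    have h2 : ∫ y, rh e y ^ 2 / (((n : ℝ) - 1) * ((n : ℝ) + 1)) ∂(sphUnif n R)
        = R ^ 4 / (n * ((n : ℝ) + 2)) := by
      rw [integral_div, hm2, hnR]
      have : R + 1 - 1 ≠ 0 := by linarith
      have : R + 1 + 1 ≠ 0 := by linarith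
      have : R + 1 + 2 ≠ 0 := by linarith
      field_simp
    rw [GG_split hn1 hR e he 0 hz, hint 2 (fun _ => 1), hint, hint, hone, h1, h2, v2, v3, v4, hnR]
    have h3 : R + 1 + 2 ≠ 0 := by linarith
    have h4 : 1 * (Real.exp (-R) * (1 + R) / R ^ 3) - 2 * R ^ 2 / (R + 1) *
        (Real.exp (-R) * (R ^ 2 + 3 * R + 3) / R ^ 5) + R ^ 4 / ((R + 1) * (R + 1 + 2)) *
        (Real.exp (-R) * (R ^ 3 + 6 * R ^ 2 + 15 * R + 15) / R ^ 7) =
        -(Real.exp (-R) * (R + 2) / (R ^ 2 * ((R + 1) * (R + 1 + 2)))) := by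
      field_simp
      ring
    rw [h4]
    have h5 : 0 < Real.exp (-R) * (R + 2) / (R ^ 2 * ((R + 1) * (R + 1 + 2))) := by positivity
    linarith
  -- small radius
  obtain ⟨δ, hδ, hδR, hG⟩ : ∃ δ : ℝ, 0 < δ ∧ δ < R ∧ ∀ r : ℝ, 0 ≤ r → r ≤ δ → GG e R r < 0 := by
    have h1 := (GG_cont hn1 hR e he).eventually (gt_mem_nhds hG0)
    obtain ⟨ε, hε, hb⟩ := Metric.eventually_nhds_iff.1 h1
    refine ⟨min (ε / 2) (R / 2), by positivity, ?_, fun r h0 h1 => ?_⟩
    · exact (min_le_right _ _).trans_lt (by linarith)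
    · refine hb ?_
      rw [Real.dist_eq, sub_zero, abs_of_nonneg h0]
      exact (h1.trans (min_le_left _ _)).trans_lt (by linarith)
  have hF : ∀ r : ℝ, 0 < r → r ≤ δ → FF e R r < 0 := by
    have hanti : StrictAntiOn (FF e R) (Icc 0 δ) := by
      refine strictAntiOn_of_deriv_neg (convex_Icc 0 δ) ?_ ?_
      · intro r hr
        rcases hr.1.eq_or_lt with h0 | h0
        · rw [← h0]
          exact (FF_cont hn1 hR e he).continuousWithinAt
        · exact ((hS n hn e he R r hR.le h0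
            (hr.2.trans_lt hδR).ne).2).continuousAt.continuousWithinAt
      · intro r hr
        rw [interior_Icc] at hr
        rw [((hS n hn e he R r hR.le hr.1 (hr.2.trans hδR).ne).2).deriv]
        have := hG r hr.1.le hr.2.le
        nlinarith [hr.1]
    intro r h0 h1
    have := hanti (left_mem_Icc.2 hδ.le) ⟨h0.le, h1⟩ h0
    rwa [hF0] at this
  have hcont : Continuous (PP e R) :=
    (Pool.Agent.Helper61.MM.continuous_potential_En (sphUnif n R)).comp (by fun_prop)
  have hlt : PP e R δ < PP e R 0 := by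
    have hanti : StrictAntiOn (PP e R) (Icc 0 δ) := by
      refine strictAntiOn_of_deriv_neg (convex_Icc 0 δ) hcont.continuousOn ?_
      intro r hr
      rw [interior_Icc] at hr
      rw [((hP n hn2 e he R hR.le).1 r hr.1).1.deriv,
        (hS n hn e he R r hR.le hr.1 (hr.2.trans hδR).ne).1]
      have := hF r hr.1 hr.2.le
      nlinarith [hr.1]
    exact hanti (left_mem_Icc.2 hδ.le) (right_mem_Icc.2 hδ.le) hδ
  have hPU : ∀ r : ℝ, U (sphUnif n R) 0 (r • e) = PP e R r := by
    intro r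
    unfold U PP potential
    refine integral_congr_ae (Eventually.of_forall fun y => ?_)
    exact om_zero _
  have hle : ∀ c : ℝ, δ ≤ c → c < R → PP e R c ≤ PP e R δ := by
    intro c h1 h2
    have hq := fQCALL n hn1 R hR 0 e he 0 δ c le_rfl hδ.le h1 h2
    simp only [hPU] at hq
    rcases min_le_iff.1 hq with h | h
    · linarith
    · exact h
  obtain ⟨hc0, hc1, -, -⟩ := fMINP n hn1 R hR
  have hlim : PP e R R ≤ PP e R δ := by
    refine le_of_tendsto (hcont.continuousAt.tendsto.mono_left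
      (nhdsWithin_le_nhds (s := Iio R))) ?_
    have : Ioo δ R ∈ 𝓝[<] R := Ioo_mem_nhdsLT hδR
    filter_upwards [this] with c hc
    exact hle c hc.1.le hc.2
  have e1 : PP e R R = sphEnergy n R := by
    unfold PP
    refine hc1 _ ?_
    rw [norm_smul, he, mul_one, Real.norm_eq_abs, abs_of_pos hR]
  have e2 : PP e R 0 = Real.exp (-R) := by
    unfold PP
    rw [zero_smul]
    exact hc0
  rw [← e1, ← e2]
  linarith

end Pool.Agent.Helper24.MM
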