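import Pool.Agent.Helper70.MM.Goals

/-!
Packet MM-THR: the threshold radius.
-/

open MeasureTheory Set Metric
open scoped ENNReal RealInnerProductSpace Topology
open Pool.Agent.Results.MP_91ee6f_gt
open Pool.Agent.Helper70.MM

namespace Pool.Agent.Helper24.MM

theorem thr : TH1 → TH2 → TH3 → TH4 → THR := by
  intro h1 h2 h3 h4 n hn
  have hn1 : 1 ≤ n := by omega
  have hnR : (2 : ℝ) ≤ n := by exact_mod_cast hn
  have hr0 : 0 < ((n : ℝ) - 1) / Real.sqrt 2 := by
    apply div_pos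
    · linarith
    · exact Real.sqrt_pos.mpr (by norm_num)
  set r0 : ℝ := ((n : ℝ) - 1) / Real.sqrt 2 with hr0def
  set S : Set ℝ := {R : ℝ | 0 < R ∧ sphEnergy n R ≤ Real.exp (-R)} with hS
  have hr0S : r0 ∈ S := ⟨hr0, h2 n hn r0 hr0 le_rfl⟩
  have hne : S.Nonempty := ⟨r0, hr0S⟩
  have hub : ∀ R ∈ S, R ≤ 2 * n * Real.log 5 := by
    intro R hR
    by_contra hcon
    push Not at hcon
    exact absurd hR.2 (not_le.mpr (h3 n hn1 R hcon))
  have hbdd : BddAbove S := ⟨_, hub⟩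
  have hpos : 0 < sSup S := lt_of_lt_of_le hr0 (le_csSup hbdd hr0S)
  -- the supremum is in the set
  have hlow : ∀ R : ℝ, 0 < R → R < sSup S → sphEnergy n R ≤ Real.exp (-R) := by
    intro R hR hlt
    obtain ⟨R1, hR1, hlt1⟩ := exists_lt_of_lt_csSup hne hlt
    exact h1 n hn1 R R1 hR hlt1.le hR1.2
  have hsup : sphEnergy n (sSup S) ≤ Real.exp (-(sSup S)) := by
    have hc : ContinuousWithinAt (sphEnergy n) (Ioi 0) (sSup S) := h4 n hn1 _ hpos
    have hc' : ContinuousAt (sphEnergy n) (sSup S) :=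
      hc.continuousAt (Ioi_mem_nhds hpos)
    have hl1 : Filter.Tendsto (sphEnergy n) (𝓝[<] (sSup S)) (𝓝 (sphEnergy n (sSup S))) :=
      hc'.tendsto.mono_left nhdsWithin_le_nhds
    have hl2 : Filter.Tendsto (fun R : ℝ => Real.exp (-R)) (𝓝[<] (sSup S))
        (𝓝 (Real.exp (-(sSup S)))) := by
      have : Continuous (fun R : ℝ => Real.exp (-R)) := by fun_prop
      exact this.continuousAt.tendsto.mono_left nhdsWithin_le_nhds
    refine le_of_tendsto_of_tendsto hl1 hl2 ?_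
    have : ∀ᶠ R in 𝓝[<] (sSup S), R ∈ Ioo 0 (sSup S) := Ioo_mem_nhdsLT hpos
    filter_upwards [this] with R hR
    exact hlow R hR.1 hR.2
  refine ⟨sSup S, le_csSup hbdd hr0S, csSup_le hne hub, ?_⟩
  intro R hR
  constructor
  · intro hle
    exact le_csSup hbdd ⟨hR, hle⟩
  · intro hle
    exact h1 n hn1 R (sSup S) hR hle hsup

end Pool.Agent.Helper24.MM
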